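import Pool.Agent.H959.Fock.Infinite

open MeasureTheory

namespace Pool.Agent.Results.MP_bbe01f_an.RadialFock

/-- `|z|^2 = |z_1|^2 + ... + |z_n|^2` for `z` in `ℂ^n`. -/
noncomputable def normSq {n : ℕ} (z : Fin n → ℂ) : ℝ := ∑ k, ‖z k‖ ^ 2

/-- The radial derivative `R f (z) = ∑_k z_k ∂f/∂z_k (z)`. -/
noncomputable def radialDeriv {n : ℕ} (f : (Fin n → ℂ) → ℂ) : (Fin n → ℂ) → ℂ :=
  fun z => ∑ k, z k * fderiv ℂ f z (Pi.single k 1)

/-- `L^p_α`: the functions `g` on `ℂ^n` with `g(z) e^{-α|z|^2/2}` in `L^p(ℂ^n, dv)`. -/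
def weightedLp (n : ℕ) (p : ENNReal) (α : ℝ) : Set ((Fin n → ℂ) → ℂ) :=
  {g | MemLp (fun z => g z * ((Real.exp (-(α * normSq z / 2)) : ℝ) : ℂ)) p volume}

/-- The Fock space `F^p_α`: the entire functions in `L^p_α`. -/
def fockSpace (n : ℕ) (p : ENNReal) (α : ℝ) : Set ((Fin n → ℂ) → ℂ) :=
  {f | Differentiable ℂ f ∧ f ∈ weightedLp n p α}

/-- For all `n ≥ 1`, `0 < p ≤ ∞`, `α > 0`, `N ≥ 1` and every entire `f` on `ℂ^n`:
`f ∈ F^p_α` if and only if `R^N f(z) / (1+|z|^2)^N ∈ L^p_α`. -/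
theorem result : ∀ (n : ℕ), 1 ≤ n → ∀ (p : ENNReal), 0 < p → ∀ (α : ℝ), 0 < α →
    ∀ (N : ℕ), 1 ≤ N → ∀ (f : (Fin n → ℂ) → ℂ), Differentiable ℂ f →
      (f ∈ fockSpace n p α ↔
        (fun z => (radialDeriv^[N] f) z / ((1 + normSq z : ℝ) : ℂ) ^ N) ∈ weightedLp n p α) := by
  intro n _ p hp α hα N _ f hf
  have h := H959.Fock.memLp_iterate hα hp.ne' hf N
  have h0 : f ∈ weightedLp n p α ↔ MemLp (H959.Fock.G α 0 f) p volume := by
    have : H959.Fock.G α 0 f = fun z => f z * ((Real.exp (-(α * normSq z / 2)) : ℝ) : ℂ) := by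
      funext z
      unfold H959.Fock.G
      rw [pow_zero, div_one]
      rfl
    rw [this]
    rfl
  have h1 : (fun z => (radialDeriv^[N] f) z / ((1 + normSq z : ℝ) : ℂ) ^ N) ∈ weightedLp n p α ↔
      MemLp (H959.Fock.G α N (H959.Fock.radial^[N] f)) p volume := Iff.rfl
  rw [h1, ← h, ← h0]
  exact ⟨fun h => h.2, fun h => ⟨hf, h⟩⟩

end Pool.Agent.Results.MP_bbe01f_an.RadialFock
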